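import Mathlib

/-!
# A non-monotone infinite-order hyperbolicity preserver with infinite-dimensional range

The operator is `T = (x - D) cos D`.  It maps hyperbolic polynomials to hyperbolic polynomials,
its coefficients are `Q_{2j} = (-1)^j x / (2j)!` and `Q_{2j+1} = - (-1)^j / (2j)!`, all nonzero, and
`deg Q_1 = 0 < 1 = deg Q_0`.  It is injective, so its range is infinite dimensional.
-/

open Polynomial

namespace Pool.Agent.Results.MP_6bb0fd_an.NonMonotone

/-- `p` is hyperbolic: `p = 0` or all complex zeros of `p` are real. -/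
def Hyperbolic (p : ℝ[X]) : Prop := p = 0 ∨ ∀ z : ℂ, aeval z p = 0 → z.im = 0

/-- `T` is represented by the formal series `∑ Q_k D^k`. -/
def Represents (Q : ℕ → ℝ[X]) (T : ℝ[X] →ₗ[ℝ] ℝ[X]) : Prop :=
  ∀ p : ℝ[X], T p = ∑ k ∈ Finset.range (p.natDegree + 1), Q k * derivative^[k] p

private lemma sum_ext_range (Q : ℕ → ℝ[X]) (p : ℝ[X]) {N : ℕ} (hN : p.natDegree ≤ N) :
    ∑ k ∈ Finset.range (N + 1), Q k * derivative^[k] p
      = ∑ k ∈ Finset.range (p.natDegree + 1), Q k * derivative^[k] p := by
  symm
  apply Finset.sum_subset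
  · intro k hk
    simp only [Finset.mem_range] at *
    omega
  · intro k _ hk
    simp only [Finset.mem_range, not_lt] at hk
    rw [iterate_derivative_eq_zero (by omega), mul_zero]

/-- The linear map given by a series `∑ Q_k D^k`. -/
noncomputable def ofSeries (Q : ℕ → ℝ[X]) : ℝ[X] →ₗ[ℝ] ℝ[X] where
  toFun p := ∑ k ∈ Finset.range (p.natDegree + 1), Q k * derivative^[k] p
  map_add' p q := by
    set N := max (p + q).natDegree (max p.natDegree q.natDegree) with hN
    rw [← sum_ext_range Q p (N := N) (by simp [hN]), ← sum_ext_range Q q (N := N) (by simp [hN]),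
      ← sum_ext_range Q (p + q) (N := N) (by simp [hN]), ← Finset.sum_add_distrib]
    refine Finset.sum_congr rfl fun k _ => ?_
    rw [iterate_map_add, mul_add]
  map_smul' c p := by
    set N := max (c • p).natDegree p.natDegree with hN
    rw [← sum_ext_range Q p (N := N) (by simp [hN]),
      ← sum_ext_range Q (c • p) (N := N) (by simp [hN]), RingHom.id_apply, Finset.smul_sum]
    refine Finset.sum_congr rfl fun k _ => ?_
    rw [iterate_derivative_smul, mul_smul_comm]

/-- The coefficients of the series of `cos D`. -/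
noncomputable def cosCoeff (k : ℕ) : ℝ := if Even k then (-1) ^ (k / 2) / (k.factorial : ℝ) else 0

/-- The coefficients `Q_k` of `(x - D) cos D`. -/
noncomputable def Q (k : ℕ) : ℝ[X] :=
  if Even k then C ((-1) ^ (k / 2) / (k.factorial : ℝ)) * X
  else - C ((-1) ^ (k / 2) / ((k - 1).factorial : ℝ))

/-- `cos D`. -/
noncomputable def cosD : ℝ[X] →ₗ[ℝ] ℝ[X] := ofSeries fun k => C (cosCoeff k)

private lemma Q_eq (k : ℕ) :
    Q k = C (cosCoeff k) * X - (if k = 0 then 0 else C (cosCoeff (k - 1))) := by
  unfold Q cosCoeff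
  rcases Nat.even_or_odd k with h | h
  · rw [if_pos h, if_pos h]
    by_cases hk : k = 0
    · simp [hk]
    · have : ¬ Even (k - 1) := by
        rw [Nat.not_even_iff_odd]
        exact Nat.Even.sub_odd (by omega) h (by norm_num)
      simp [hk, this]
  · have h' : ¬ Even k := Nat.not_even_iff_odd.mpr h
    obtain ⟨m, rfl⟩ := h
    have h1 : Even (2 * m + 1 - 1) := ⟨m, by omega⟩
    rw [if_neg h', if_neg h', if_pos h1, if_neg (by omega)]
    have h2 : (2 * m + 1) / 2 = (2 * m + 1 - 1) / 2 := by omega
    rw [h2]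
    simp

private lemma ofSeries_apply (Q : ℕ → ℝ[X]) (p : ℝ[X]) {N : ℕ} (hN : p.natDegree ≤ N) :
    ofSeries Q p = ∑ k ∈ Finset.range (N + 1), Q k * derivative^[k] p :=
  (sum_ext_range Q p hN).symm

private lemma T_eq (p : ℝ[X]) : ofSeries Q p = X * cosD p - derivative (cosD p) := by
  rw [ofSeries_apply Q p (N := p.natDegree + 1) (by omega), cosD]
  have h1 := ofSeries_apply (fun k => C (cosCoeff k)) p (N := p.natDegree + 1) (by omega)
  have h2 := ofSeries_apply (fun k => C (cosCoeff k)) p (N := p.natDegree) le_rfl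
  conv_rhs => rw [h1]
  rw [← h1, h2]
  rw [map_sum]
  simp only [derivative_mul, derivative_C, zero_mul, zero_add]
  rw [← h2, h1]
  simp only [Q_eq, sub_mul, Finset.sum_sub_distrib, Finset.mul_sum]
  congr 1
  · refine Finset.sum_congr rfl fun k _ => ?_
    ring
  · rw [Finset.sum_range_succ']
    simp [Function.iterate_succ_apply']

/-- The value of `cos D p` at a complex point. -/
private lemma aeval_cosD (p : ℝ[X]) (z : ℂ) :
    aeval z (cosD p) = (aeval (z + Complex.I) p + aeval (z - Complex.I) p) / 2 := by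
  have key : ∀ w : ℂ, aeval (z + w) p
      = ∑ k ∈ Finset.range (p.natDegree + 1), aeval z (derivative^[k] p) * w ^ k / k.factorial := by
    intro w
    set P : ℂ[X] := p.map (algebraMap ℝ ℂ) with hP
    have h1 : aeval (z + w) p = (taylor z P).eval w := by
      rw [taylor_eval, hP, eval_map_algebraMap, add_comm]
    rw [h1, eval_eq_sum_range' (n := p.natDegree + 1)]
    · refine Finset.sum_congr rfl fun k _ => ?_
      rw [taylor_coeff]
      have h2 : aeval z (derivative^[k] p) = (derivative^[k] P).eval z := by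
        rw [hP, iterate_derivative_map, eval_map_algebraMap]
      rw [h2, ← factorial_smul_hasseDeriv]
      rw [LinearMap.smul_apply, eval_smul, nsmul_eq_mul]
      have : (k.factorial : ℂ) ≠ 0 := Nat.cast_ne_zero.mpr (Nat.factorial_ne_zero k)
      field_simp
    · rw [natDegree_taylor]
      have : P.natDegree ≤ p.natDegree := natDegree_map_le
      omega
  rw [key Complex.I, sub_eq_add_neg, key (-Complex.I), cosD,
    ofSeries_apply _ p le_rfl, map_sum, ← Finset.sum_add_distrib, Finset.sum_div]
  refine Finset.sum_congr rfl fun k _ => ?_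
  rw [map_mul, aeval_C]
  unfold cosCoeff
  rcases Nat.even_or_odd k with h | h
  · rw [if_pos h, h.neg_pow]
    obtain ⟨m, rfl⟩ := h
    have h3 : (m + m) / 2 = m := by omega
    have h4 : Complex.I ^ (m + m) = (-1) ^ m := by
      rw [← two_mul, pow_mul, Complex.I_sq]
    rw [h3, h4]
    simp
    ring
  · have h' : ¬ Even k := Nat.not_even_iff_odd.mpr h
    rw [if_neg h', h.neg_pow]
    simp
    ring

/-- A nonzero hyperbolic polynomial splits, so that its values at complex points factor. -/
private lemma exists_roots {p : ℝ[X]} (h : ∀ z : ℂ, aeval z p = 0 → z.im = 0) :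
    ∃ s : Multiset ℝ, ∀ z : ℂ, aeval z p
      = (p.leadingCoeff : ℂ) * (s.map fun a : ℝ => z - (a : ℂ)).prod := by
  set P : ℂ[X] := p.map (algebraMap ℝ ℂ) with hP
  have hPs : P.Splits := IsAlgClosed.splits P
  refine ⟨P.roots.map Complex.re, fun z => ?_⟩
  have h1 : P = C P.leadingCoeff * (P.roots.map fun a => X - C a).prod :=
    hPs.eq_prod_roots
  have h2 : aeval z p = P.eval z := by rw [hP, eval_map_algebraMap]
  rw [h2]
  conv_lhs => rw [h1]
  rw [eval_mul, eval_C, eval_multiset_prod, Multiset.map_map]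
  congr 1
  · rw [hP, leadingCoeff_map]
    rfl
  · rw [Multiset.map_map]
    congr 1
    apply Multiset.map_congr rfl
    intro a ha
    have ha0 : P.eval a = 0 := by
      have := (mem_roots'.mp ha).2
      exact this
    have him : a.im = 0 := h a (by rw [← ha0, hP, eval_map_algebraMap])
    have : ((a.re : ℝ) : ℂ) = a := by
      apply Complex.ext <;> simp [him]
    simp [this]

/-- Comparison of the two products above the real axis. -/
private lemma prod_compare (z : ℂ) (hz : 0 < z.im) (s : Multiset ℝ) :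
    0 < ‖(s.map fun a : ℝ => z + Complex.I - (a : ℂ)).prod‖ ∧
    (‖(s.map fun a : ℝ => z - Complex.I - (a : ℂ)).prod‖
      ≤ ‖(s.map fun a : ℝ => z + Complex.I - (a : ℂ)).prod‖) ∧
    (s ≠ 0 → ‖(s.map fun a : ℝ => z - Complex.I - (a : ℂ)).prod‖
      < ‖(s.map fun a : ℝ => z + Complex.I - (a : ℂ)).prod‖) := by
  have key : ∀ a : ℝ, ‖z - Complex.I - (a : ℂ)‖ < ‖z + Complex.I - (a : ℂ)‖ := by
    intro a
    rw [← sq_lt_sq₀ (norm_nonneg _) (norm_nonneg _), Complex.sq_norm, Complex.sq_norm,
      Complex.normSq_apply, Complex.normSq_apply]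
    simp
    nlinarith
  induction s using Multiset.induction_on with
  | empty => simp
  | cons a s ih =>
    obtain ⟨h0, h1, -⟩ := ih
    simp only [Multiset.map_cons, Multiset.prod_cons, norm_mul]
    have ha := key a
    have h3 : 0 < ‖z + Complex.I - (a : ℂ)‖ := lt_of_le_of_lt (norm_nonneg _) ha
    have h4 : ‖z - Complex.I - (a : ℂ)‖ * ‖(s.map fun a : ℝ => z - Complex.I - (a : ℂ)).prod‖
        < ‖z + Complex.I - (a : ℂ)‖ * ‖(s.map fun a : ℝ => z + Complex.I - (a : ℂ)).prod‖ :=
      calc _ ≤ ‖z - Complex.I - (a : ℂ)‖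
              * ‖(s.map fun a : ℝ => z + Complex.I - (a : ℂ)).prod‖ :=
            mul_le_mul_of_nonneg_left h1 (norm_nonneg _)
        _ < _ := mul_lt_mul_of_pos_right ha h0
    exact ⟨mul_pos h3 h0, h4.le, fun _ => h4⟩

/-- `cos D` preserves hyperbolicity and kills no nonzero polynomial. -/
private lemma cosD_hyp {p : ℝ[X]} (hp : p ≠ 0) (h : ∀ z : ℂ, aeval z p = 0 → z.im = 0) :
    ∀ z : ℂ, aeval z (cosD p) = 0 → z.im = 0 := by
  obtain ⟨s, hs⟩ := exists_roots h
  have hlc : (p.leadingCoeff : ℂ) ≠ 0 := by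
    exact_mod_cast leadingCoeff_ne_zero.mpr hp
  have up : ∀ z : ℂ, 0 < z.im → aeval z (cosD p) ≠ 0 := by
    intro z hz h0
    rw [aeval_cosD] at h0
    have h1 : aeval (z + Complex.I) p = - aeval (z - Complex.I) p := by
      have := div_eq_zero_iff.mp h0
      rcases this with h | h
      · exact eq_neg_of_add_eq_zero_left h
      · norm_num at h
    rw [hs, hs, ← mul_neg] at h1
    have h2 := mul_left_cancel₀ hlc h1
    obtain ⟨h3, h4, h5⟩ := prod_compare z hz s
    by_cases hs0 : s = 0
    · subst hs0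
      simp at h2
      norm_num [Complex.ext_iff] at h2
    · have h6 := h5 hs0
      rw [h2, norm_neg] at h6
      exact lt_irrefl _ h6
  intro z hz
  rcases lt_trichotomy z.im 0 with h1 | h1 | h1
  · exfalso
    refine up (starRingEnd ℂ z) (by simpa using h1) ?_
    rw [Polynomial.aeval_conj, hz, map_zero]
  · exact h1
  · exact absurd hz (up z h1)

/-- `x - D` preserves hyperbolicity. -/
private lemma sub_hyp {q : ℝ[X]} (hq : q ≠ 0) (h : ∀ z : ℂ, aeval z q = 0 → z.im = 0) :
    ∀ z : ℂ, aeval z (X * q - derivative q) = 0 → z.im = 0 := by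
  intro z hz
  by_contra hne
  have hqz : aeval z q ≠ 0 := fun h0 => hne (h z h0)
  set P : ℂ[X] := q.map (algebraMap ℝ ℂ) with hP
  have hP0 : P ≠ 0 := (Polynomial.map_ne_zero_iff (algebraMap ℝ ℂ).injective).mpr hq
  have hPs : P.Splits := IsAlgClosed.splits P
  have hPz : P.eval z ≠ 0 := by rwa [hP, eval_map_algebraMap]
  have h1 : (derivative P).eval z / P.eval z
      = (P.roots.map fun a => 1 / (z - a)).sum := by
    exact hPs.eval_derivative_div_eval_of_ne_zero hPz
  have h2 : (derivative P).eval z = z * P.eval z := by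
    have e1 : aeval z (X * q - derivative q) = z * P.eval z - (derivative P).eval z := by
      rw [map_sub, map_mul, aeval_X, hP, eval_map_algebraMap, derivative_map, eval_map_algebraMap]
    rw [e1] at hz
    linear_combination -hz
  have h3 : z = (P.roots.map fun a => 1 / (z - a)).sum := by
    rw [← h1, h2, mul_div_assoc, div_self hPz, mul_one]
  -- imaginary parts
  have h4 : z.im * z.im = (P.roots.map fun a => z.im * (1 / (z - a)).im).sum := by
    rw [Multiset.sum_map_mul_left]
    congr 1
    conv_lhs => rw [h3]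
    rw [← Complex.imLm_coe, map_multiset_sum, Multiset.map_map]
    rfl
  have h5 : 0 ≤ (P.roots.map fun a => -(z.im * (1 / (z - a)).im)).sum := by
    apply Multiset.sum_nonneg
    intro x hx
    obtain ⟨a, ha, rfl⟩ := Multiset.mem_map.mp hx
    have ha0 : P.eval a = 0 := (mem_roots'.mp ha).2
    have him : a.im = 0 := h a (by rw [← ha0, hP, eval_map_algebraMap])
    rw [one_div, Complex.inv_im]
    simp only [Complex.sub_im, him, sub_zero]
    have : -(z.im * (-z.im / Complex.normSq (z - a))) = z.im ^ 2 / Complex.normSq (z - a) := by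
      ring
    rw [this]
    exact div_nonneg (sq_nonneg z.im) (Complex.normSq_nonneg (z - a))
  rw [Multiset.sum_map_neg] at h5
  have h6 : 0 < z.im * z.im := mul_self_pos.mpr hne
  linarith

private lemma Q_ne_zero (k : ℕ) : Q k ≠ 0 := by
  have h1 : ∀ j i : ℕ, (-1 : ℝ) ^ j / (i.factorial : ℝ) ≠ 0 := fun j i =>
    div_ne_zero (pow_ne_zero _ (by norm_num)) (Nat.cast_ne_zero.mpr (Nat.factorial_ne_zero i))
  unfold Q
  split_ifs with h
  · exact mul_ne_zero (C_ne_zero.mpr (h1 _ _)) X_ne_zero
  · exact neg_ne_zero.mpr (C_ne_zero.mpr (h1 _ _))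

/-- The coefficient of `(x - D) cos D p` in degree `deg p + 1`. -/
private lemma coeff_T {p : ℝ[X]} (hp : p ≠ 0) :
    (ofSeries Q p).coeff (p.natDegree + 1) = p.leadingCoeff := by
  rw [ofSeries_apply Q p le_rfl, finsetSum_coeff, Finset.sum_range_succ']
  have h0 : (Q 0 * derivative^[0] p).coeff (p.natDegree + 1) = p.leadingCoeff := by
    simp [Q, coeff_X_mul]
  rw [h0]
  suffices h : ∀ k ∈ Finset.range p.natDegree,
      (Q (k + 1) * derivative^[k + 1] p).coeff (p.natDegree + 1) = 0 by
    rw [Finset.sum_eq_zero h, zero_add]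
  intro k hk
  apply coeff_eq_zero_of_natDegree_lt
  have h1 := natDegree_iterate_derivative p (k + 1)
  have h2 : (Q (k + 1)).natDegree ≤ 1 := by
    unfold Q
    split_ifs
    · exact (natDegree_C_mul_le _ _).trans natDegree_X_le
    · rw [natDegree_neg, natDegree_C]
      exact Nat.zero_le _
  have h3 := natDegree_mul_le (p := Q (k + 1)) (q := derivative^[k + 1] p)
  have h4 := Finset.mem_range.mp hk
  omega

/-- There is a hyperbolicity preserver `T = ∑ Q_k D^k` of infinite order (in fact all `Q_k` are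
nonzero) with range of dimension at least `3` (in fact infinite), which is not monotone: both
`Q_0` and `Q_1` are nonzero and `deg Q_1 < deg Q_0`. -/
theorem result : ∃ (T : ℝ[X] →ₗ[ℝ] ℝ[X]) (Q : ℕ → ℝ[X]),
    Represents Q T ∧
    {k | Q k ≠ 0}.Infinite ∧
    (∀ p, Hyperbolic p → Hyperbolic (T p)) ∧
    3 ≤ Module.rank ℝ (LinearMap.range T) ∧
    ∃ k, Q k ≠ 0 ∧ Q (k + 1) ≠ 0 ∧ (Q (k + 1)).degree < (Q k).degree := by
  have hinj : Function.Injective (ofSeries Q) := by
    rw [injective_iff_map_eq_zero]
    intro p hp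
    by_contra hne
    have := coeff_T hne
    rw [hp, coeff_zero] at this
    exact hne (leadingCoeff_eq_zero.mp this.symm)
  refine ⟨ofSeries Q, Q, fun p => rfl, ?_, ?_, ?_, 0, Q_ne_zero 0, Q_ne_zero 1, ?_⟩
  · have : {k | Q k ≠ 0} = Set.univ := by
      ext k
      simp [Q_ne_zero k]
    rw [this]
    exact Set.infinite_univ
  · intro p hp
    rcases hp with rfl | hp
    · left
      exact map_zero _
    · by_cases hp0 : p = 0
      · left
        rw [hp0, map_zero]
      right
      rw [T_eq]
      have h1 := cosD_hyp hp0 hp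
      have hc : cosD p ≠ 0 := by
        intro h0
        have h2 := T_eq p
        rw [h0, mul_zero, derivative_zero, sub_zero] at h2
        exact hp0 ((injective_iff_map_eq_zero _).mp hinj p h2)
      exact sub_hyp hc h1
  · have e := LinearEquiv.ofInjective (ofSeries Q) hinj
    rw [← e.rank_eq, ← (basisMonomials ℝ).mk_eq_rank'']
    simp only [Cardinal.mk_nat]
    exact (Cardinal.natCast_lt_aleph0 (n := 3)).le
  · have h0 : Q 0 = X := by simp [Q]
    have h1 : Q (0 + 1) = -1 := by simp [Q]
    rw [h0, h1, degree_X, degree_neg, degree_one]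
    norm_num

end Pool.Agent.Results.MP_6bb0fd_an.NonMonotone
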